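import Pool.Agent.H752R3.LuzinProduct

/-!
Under CH, for every `cov(M)`-Luzin set `X` there is a set of reals `Y` all of whose finite powers
are Rothberger such that `X × Y` is not Menger.
-/

namespace Pool.Agent.Results.MP_10f401_gt.LuzinProductsCH

open Set Filter Topology Cardinal Pool.Agent.H752R3

/-- The least cardinality of a family of meagre sets covering the Cantor space. -/
noncomputable def covM : Cardinal.{0} :=
  sInf {κ | ∃ A : Set (Set (ℕ → Bool)), (∀ M ∈ A, IsMeagre M) ∧ ⋃₀ A = Set.univ ∧ #A = κ}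

/-- `X` is a `κ`-Luzin set. -/
def IsKLuzin (κ : Cardinal.{0}) (X : Set (ℕ → Bool)) : Prop :=
  κ ≤ #X ∧ ∀ M : Set (ℕ → Bool), IsMeagre M → #(X ∩ M : Set (ℕ → Bool)) < κ

theorem covM_eq (CH : (ℵ₁ : Cardinal.{0}) = 𝔠) : covM = ℵ₁ := by
  have h1 : #(range fun x : ℕ → Bool => ({x} : Set (ℕ → Bool))) ∈
      {κ | ∃ A : Set (Set (ℕ → Bool)), (∀ M ∈ A, IsMeagre M) ∧ ⋃₀ A = Set.univ ∧ #A = κ} := by
    refine ⟨_, ?_, ?_, rfl⟩
    · rintro _ ⟨x, rfl⟩
      exact (isNowhereDense_singleton_cantor x).isMeagre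
    · rw [eq_univ_iff_forall]
      intro x
      exact ⟨{x}, ⟨x, rfl⟩, rfl⟩
  apply le_antisymm
  · refine (csInf_le' h1).trans ?_
    refine Cardinal.mk_range_le.trans ?_
    rw [CH]
    simp
  · apply le_csInf ⟨_, h1⟩
    rintro κ ⟨A, hA1, hA2, rfl⟩
    by_contra hlt
    have hc : A.Countable := countable_of_lt_aleph1 (not_le.1 hlt)
    have h2 : IsMeagre (⋃₀ A) := by
      rw [sUnion_eq_biUnion]
      exact isMeagre_biUnion hc hA1
    rw [hA2] at h2
    exact not_isMeagre_of_isOpen isOpen_univ univ_nonempty h2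

/-- **Under CH, parts (a) and (b) have positive answers for every `cov(M)`-Luzin set.** -/
theorem result (CH : (ℵ₁ : Cardinal.{0}) = 𝔠) (X : Set (ℕ → Bool)) (hX : IsKLuzin covM X) :
    ∃ Y : Set (ℕ → Bool),
      (∀ k : ℕ, 1 ≤ k → RothbergerSp (Fin k → Y) ∧ MengerSp (Fin k → Y)) ∧ ¬ MengerSp (X × Y) := by
  rw [covM_eq CH] at hX
  have hL : LuzinSet X := by
    refine ⟨fun hc => ?_, fun M hM => countable_of_lt_aleph1 (hX.2 M hM)⟩
    have h1 := hX.1
    have h2 : #X ≤ ℵ₀ := by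
      rw [Cardinal.mk_le_aleph0_iff, Set.countable_coe_iff]; exact hc
    exact absurd (h1.trans h2) (not_le.2 Cardinal.aleph0_lt_aleph_one)
  obtain ⟨Y, hne, hY, hXY⟩ := luzin_product CH hL
  refine ⟨Y, fun k _ => ?_, hXY⟩
  have hR := hY.rothberger_pow hne k
  refine ⟨hR, ?_⟩
  intro U hU
  obtain ⟨u, hu1, hu2⟩ := hR U hU
  refine ⟨fun n => {u n}, fun n => ⟨by simpa using hu1 n, Set.finite_singleton _⟩, ?_⟩
  simpa using hu2

end Pool.Agent.Results.MP_10f401_gt.LuzinProductsCH
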