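import Pool.Agent.H381R3.LPDMain

/-!
If `cov(M) = 𝔡` is regular (the continuum is arbitrary), then for every `cov(M)`-Luzin set `X`
there is a set of reals `Y` all of whose finite powers are Rothberger such that `X × Y` is not
Menger.
-/

set_option autoImplicit false

namespace Pool.Agent.Results.MP_10f401_gt.RothbergerPowersCovD

open Set Filter Topology Cardinal Pool.Agent.H752R3 Pool.Agent.H381R3.LP

/-- The least cardinality of a family of meagre sets covering the Cantor space. -/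
noncomputable def covM : Cardinal.{0} :=
  sInf {κ | ∃ A : Set (Set (ℕ → Bool)), (∀ M ∈ A, IsMeagre M) ∧ ⋃₀ A = Set.univ ∧ #A = κ}

/-- The least cardinality of a dominating family of functions. -/
noncomputable def domD : Cardinal.{0} :=
  sInf {κ | ∃ A : Set (ℕ → ℕ), (∀ g : ℕ → ℕ, ∃ f ∈ A, ∀ᶠ n in atTop, g n ≤ f n) ∧ #A = κ}

/-- `X` is a `κ`-Luzin set. -/
def IsKLuzin (κ : Cardinal.{0}) (X : Set (ℕ → Bool)) : Prop :=
  κ ≤ #X ∧ ∀ M : Set (ℕ → Bool), IsMeagre M → #(X ∩ M : Set (ℕ → Bool)) < κ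

theorem covK_covM : CovK covM := by
  intro ι M hι hM hU
  have h1 : #(range M) ∈
      {κ | ∃ A : Set (Set (ℕ → Bool)), (∀ M ∈ A, IsMeagre M) ∧ ⋃₀ A = Set.univ ∧ #A = κ} := by
    refine ⟨range M, ?_, ?_, rfl⟩
    · rintro _ ⟨i, rfl⟩
      exact hM i
    · rw [sUnion_range]
      exact hU
  have h2 : covM ≤ #(range M) := csInf_le' h1
  exact absurd (h2.trans Cardinal.mk_range_le) (not_le.2 hι)

theorem covM_bounds : ℵ₀ < covM ∧ covM ≤ 𝔠 := by
  have h1 : #(range fun x : ℕ → Bool => ({x} : Set (ℕ → Bool))) ∈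
      {κ | ∃ A : Set (Set (ℕ → Bool)), (∀ M ∈ A, IsMeagre M) ∧ ⋃₀ A = Set.univ ∧ #A = κ} := by
    refine ⟨_, ?_, ?_, rfl⟩
    · rintro _ ⟨x, rfl⟩
      exact (isNowhereDense_singleton_cantor x).isMeagre
    · rw [eq_univ_iff_forall]
      intro x
      exact ⟨{x}, ⟨x, rfl⟩, rfl⟩
  constructor
  · rw [← Order.succ_le_iff]
    apply le_csInf ⟨_, h1⟩
    rintro κ ⟨A, hA1, hA2, rfl⟩
    rw [Order.succ_le_iff]
    by_contra hlt
    have hc : A.Countable := Cardinal.mk_le_aleph0_iff.1 (not_lt.1 hlt)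
    have h2 : IsMeagre (⋃₀ A) := by
      rw [sUnion_eq_biUnion]
      exact isMeagre_biUnion hc hA1
    rw [hA2] at h2
    exact not_isMeagre_of_isOpen isOpen_univ univ_nonempty h2
  · refine (csInf_le' h1).trans ?_
    refine Cardinal.mk_range_le.trans ?_
    simp

/-- **If `𝔡 ≤ cov(M)` (that is, `cov(M) = 𝔡`) and `cov(M)` is regular, parts (a) and (b) have
positive answers for every `cov(M)`-Luzin set.** -/
theorem result (hd : domD ≤ covM) (hr : covM.IsRegular)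
    (X : Set (ℕ → Bool)) (hX : IsKLuzin covM X) :
    ∃ Y : Set (ℕ → Bool),
      (∀ k : ℕ, 1 ≤ k → RothbergerSp (Fin k → Y) ∧ MengerSp (Fin k → Y)) ∧ ¬ MengerSp (X × Y) := by
  classical
  obtain ⟨A, hA, hAc⟩ : domD ∈
      {κ | ∃ A : Set (ℕ → ℕ), (∀ g : ℕ → ℕ, ∃ f ∈ A, ∀ᶠ n in atTop, g n ≤ f n) ∧ #A = κ} := by
    apply csInf_mem
    exact ⟨_, Set.univ, fun g => ⟨g, Set.mem_univ _, Eventually.of_forall fun n => le_rfl⟩, rfl⟩
  have hcard : #A ≤ #(KO covM) := by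
    rw [hAc, Cardinal.mk_ord_toType]
    exact hd
  obtain ⟨g⟩ := (Cardinal.le_def _ _).1 hcard
  obtain ⟨f0, hf0, -⟩ := hA fun _ => 0
  have : Nonempty A := ⟨⟨f0, hf0⟩⟩
  have hs := Function.invFun_surjective g.injective
  obtain ⟨Y, hne, hY, hXY⟩ := luzin_product_k hr covM_bounds.1 covM_bounds.2 covK_covM
    (X := X) hX (fun a => (Function.invFun g a : A).1) (by
      intro h
      obtain ⟨f, hf, hfh⟩ := hA h
      obtain ⟨a, ha⟩ := hs ⟨f, hf⟩
      exact ⟨a, by rw [ha]; exact hfh⟩)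
  refine ⟨Y, fun k _ => ?_, hXY⟩
  have hR := hY.rothberger_pow hne k
  refine ⟨hR, ?_⟩
  intro U hU
  obtain ⟨u, hu1, hu2⟩ := hR U hU
  refine ⟨fun n => {u n}, fun n => ⟨by simpa using hu1 n, Set.finite_singleton _⟩, ?_⟩
  simpa using hu2

end Pool.Agent.Results.MP_10f401_gt.RothbergerPowersCovD
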